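import Pool.Agent.Y98.AZ.SpgA

/-!
Project AZ: subalgebras of the symplectic Lie algebra with elements of rank one, the end of the proof.
-/

set_option autoImplicit false
set_option linter.unusedSectionVars false

namespace Pool.Agent.Y98.AZ

open Module

section

variable {K V : Type} [Field K] [AddCommGroup V] [Module K V] {B : V →ₗ[K] V →ₗ[K] K}
  {L : Submodule K (End K V)}

theorem tt_add (a b b' : V) : tt B a (b + b') = tt B a b + tt B a b' := by
  ext v
  rw [LinearMap.add_apply, tt_apply, tt_apply, tt_apply, smul_add, map_add, LinearMap.add_apply, add_smul]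
  abel

theorem tt_smul (a b : V) (t : K) : tt B a (t • b) = t • tt B a b := by
  ext v
  rw [LinearMap.smul_apply, tt_apply, tt_apply, smul_add, map_smul, LinearMap.smul_apply, smul_smul, smul_smul,
    smul_smul, smul_eq_mul, mul_comm t (B a v)]

theorem tt_comm (a b : V) : tt B a b = tt B b a := by
  ext v
  rw [tt_apply, tt_apply, add_comm]

theorem tt_self (a : V) : tt B a a = (2 : K) • ro B a a := by
  ext v
  rw [LinearMap.smul_apply, tt_apply, ro_apply, two_smul]

/-- partners -/
def Wa (B : V →ₗ[K] V →ₗ[K] K) (L : Submodule K (End K V)) (a : V) : Submodule K V where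
  carrier := {b | tt B a b ∈ L}
  zero_mem' := by
    have h : tt B a 0 = 0 := by
      ext v
      rw [tt_apply, smul_zero, map_zero, LinearMap.zero_apply, zero_smul, add_zero, LinearMap.zero_apply]
    change tt B a 0 ∈ L
    rw [h]
    exact L.zero_mem
  add_mem' := fun {x y} hx hy => by
    change tt B a (x + y) ∈ L
    rw [tt_add]
    exact L.add_mem hx hy
  smul_mem' := fun t x hx => by
    change tt B a (t • x) ∈ L
    rw [tt_smul]
    exact L.smul_mem t hx

theorem mem_Wa {a b : V} : b ∈ Wa B L a ↔ tt B a b ∈ L := Iff.rfl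

theorem brk1 (hB : ∀ v, B v v = 0) (a b : V) :
    ro B a a * ro B b b - ro B b b * ro B a a = B a b • tt B a b := by
  ext v
  rw [LinearMap.sub_apply, Module.End.mul_apply, Module.End.mul_apply, LinearMap.smul_apply, tt_apply]
  simp only [ro_apply, map_smul, smul_eq_mul]
  rw [swap hB b a]
  module

theorem brk2 (hB : ∀ v, B v v = 0) (a b c : V) (h : B a c = 0) :
    tt B a b * ro B c c - ro B c c * tt B a b = B b c • tt B a c := by
  ext v
  rw [LinearMap.sub_apply, Module.End.mul_apply, Module.End.mul_apply, LinearMap.smul_apply, tt_apply,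
    tt_apply, tt_apply]
  simp only [ro_apply, map_smul, map_add, smul_eq_mul]
  rw [swap hB c a, swap hB c b, h]
  module

theorem Wa_PP (hB : ∀ v, B v v = 0) (hL : ∀ y ∈ L, ∀ z ∈ L, y * z - z * y ∈ L) {a : V} (ha : a ∈ Cs B L) :
    PP B L (Wa B L a) := by
  intro c hc
  by_contra hcon
  rw [not_or] at hcon
  obtain ⟨h1, h2⟩ := hcon
  push Not at h2
  obtain ⟨b, hb, hcb⟩ := h2
  apply h1
  rw [mem_Wa]
  by_cases hac : B a c = 0
  · have h3 := hL _ hb _ hc
    rw [brk2 hB a b c hac] at h3
    have h4 : B b c ≠ 0 := by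
      rw [swap hB]
      exact neg_ne_zero.2 hcb
    have h5 := L.smul_mem (B b c)⁻¹ h3
    rwa [smul_smul, inv_mul_cancel₀ h4, one_smul] at h5
  · have h3 := hL _ ha _ hc
    rw [brk1 hB a c] at h3
    have h5 := L.smul_mem (B a c)⁻¹ h3
    rwa [smul_smul, inv_mul_cancel₀ hac, one_smul] at h5

/-- the form identifies the space with its dual -/
theorem exists_dual [FiniteDimensional K V] (hnd : ∀ u, (∀ v, B u v = 0) → u = 0) (f : V →ₗ[K] K) :
    ∃ d : V, ∀ v, B d v = f v := by
  have hinj : Function.Injective B := by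
    rw [← LinearMap.ker_eq_bot, Submodule.eq_bot_iff]
    intro u hu
    apply hnd
    intro v
    rw [LinearMap.mem_ker.1 hu, LinearMap.zero_apply]
  have hfr : finrank K V = finrank K (Module.Dual K V) := (Subspace.dual_finrank_eq).symm
  have hsur : Function.Surjective B := (LinearMap.injective_iff_surjective_of_finrank_eq_finrank hfr).1 hinj
  obtain ⟨d, hd⟩ := hsur f
  exact ⟨d, fun v => by rw [hd]⟩

/-- skew operators are sums of symmetric combinations -/
theorem skew_mem [FiniteDimensional K V] (h2 : (2 : K) ≠ 0) (hB : ∀ v, B v v = 0)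
    (hnd : ∀ u, (∀ v, B u v = 0) → u = 0) (hall : ∀ a b, tt B a b ∈ L) {y : End K V}
    (hy : ∀ u v, B (y u) v + B u (y v) = 0) : y ∈ L := by
  let b := Module.finBasis K V
  choose d hd using fun i => exists_dual hnd (b.coord i)
  have h3 : ∀ w : V, w = -∑ i, B (b i) w • d i := by
    intro w
    rw [← sub_eq_zero]
    apply hnd
    intro u
    have h4 : B u w = ∑ i, b.coord i u * B (b i) w := by
      conv_lhs => rw [← b.sum_repr u]
      rw [map_sum, LinearMap.sum_apply]
      refine Finset.sum_congr rfl fun i _ => ?_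
      rw [map_smul, LinearMap.smul_apply, smul_eq_mul]
      rfl
    rw [sub_neg_eq_add, map_add, LinearMap.add_apply, map_sum, LinearMap.sum_apply, swap hB w u, h4,
      neg_add_eq_zero]
    refine Finset.sum_congr rfl fun i _ => ?_
    rw [map_smul, LinearMap.smul_apply, hd, smul_eq_mul, mul_comm]
  have h5 : (2 : K) • y = ∑ i, tt B (d i) (y (b i)) := by
    ext v
    rw [LinearMap.smul_apply, LinearMap.sum_apply]
    simp only [tt_apply, Finset.sum_add_distrib]
    have h6 : ∑ i, B (d i) v • y (b i) = y v := by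
      conv_rhs => rw [← b.sum_repr v, map_sum]
      refine Finset.sum_congr rfl fun i _ => ?_
      rw [map_smul, hd]
      rfl
    have h7 : ∑ i, B (y (b i)) v • d i = y v := by
      conv_rhs => rw [h3 (y v)]
      rw [← Finset.sum_neg_distrib]
      refine Finset.sum_congr rfl fun i _ => ?_
      rw [← neg_smul]
      congr 1
      linear_combination hy (b i) v
    rw [h6, h7, two_smul]
  have h6 : (2 : K) • y ∈ L := by
    rw [h5]
    exact L.sum_mem fun i _ => hall _ _
  have h7 := L.smul_mem (2 : K)⁻¹ h6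
  rwa [smul_smul, inv_mul_cancel₀ h2, one_smul] at h7

/-- operators of rank one -/
theorem exists_sq [FiniteDimensional K V] (hB : ∀ v, B v v = 0) {N : End K V}
    (hN : N ∈ L) (hsk : ∀ u v, B (N u) v + B u (N v) = 0) (h1 : finrank K (LinearMap.range N) = 1) :
    ∃ a, a ≠ 0 ∧ a ∈ Cs B L := by
  obtain ⟨⟨a, v0, hv0⟩, ha0, ha⟩ := finrank_eq_one_iff'.1 h1
  refine ⟨a, fun h => ha0 (Subtype.ext h), ?_⟩
  have h2 : ro B a a = B a v0 • N := by
    ext u
    obtain ⟨t, ht⟩ := ha ⟨N u, u, rfl⟩
    have h3 : t • a = N u := congrArg Subtype.val ht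
    have h4 := hsk u v0
    rw [← h3, hv0, map_smul, LinearMap.smul_apply, smul_eq_mul] at h4
    rw [ro_apply, LinearMap.smul_apply, ← h3, smul_smul]
    congr 1
    rw [swap hB a u]
    linear_combination -h4
  change ro B a a ∈ L
  rw [h2]
  exact L.smul_mem _ hN

end

/-- the main statement -/
theorem spg (K V G : Type) [Field K] [CharZero K] [AddCommGroup V] [Module K V]
    [FiniteDimensional K V] [Group G] (r : Representation K G V) (c : G → K)
    (B : V →ₗ[K] V →ₗ[K] K) (L : Submodule K (End K V)) (N : End K V)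
    (hB : ∀ v, B v v = 0) (hnd : ∀ u, (∀ v, B u v = 0) → u = 0)
    (hc : ∀ g u v, B (r g u) (r g v) = c g * B u v)
    (hirr : ∀ Δ : Subgroup G, Δ.FiniteIndex → ∀ W : Submodule K V, (∀ g ∈ Δ, ∀ u ∈ W, r g u ∈ W) →
      W = ⊥ ∨ W = ⊤)
    (hL : ∀ y ∈ L, ∀ z ∈ L, y * z - z * y ∈ L) (hG : ∀ g, ∀ y ∈ L, r g * y * r g⁻¹ ∈ L)
    (hN : N ∈ L) (hsk : ∀ u v, B (N u) v + B u (N v) = 0)
    (h1 : finrank K (LinearMap.range N) = 1) (y : End K V)
    (hy : ∀ u v, B (y u) v + B u (y v) = 0) : y ∈ L := by
  obtain ⟨a0, ha0, haC⟩ := exists_sq hB hN hsk h1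
  have h2 : (2 : K) ≠ 0 := two_ne_zero
  have hspan : Submodule.span K (Cs B L) = ⊤ := by
    rcases hirr ⊤ inferInstance (Submodule.span K (Cs B L)) (fun g _ u hu => by
      induction hu using Submodule.span_induction with
      | mem x hx => exact Submodule.subset_span (Cs_stable hc hG g hx)
      | zero => rw [map_zero]; exact Submodule.zero_mem _
      | add x y _ _ hx hy => rw [map_add]; exact Submodule.add_mem _ hx hy
      | smul t x _ hx => rw [map_smul]; exact Submodule.smul_mem _ _ hx) with h | h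
    · exfalso
      have h3 : a0 ∈ Submodule.span K (Cs B L) := Submodule.subset_span haC
      rw [h] at h3
      exact ha0 ((Submodule.mem_bot K).1 h3)
    · exact h
  -- squares and arbitrary vectors
  have hCall : ∀ a ∈ Cs B L, ∀ b, tt B a b ∈ L := by
    intro a ha b
    by_cases ha0 : a = 0
    · have h3 : b ∈ Wa B L a → tt B a b ∈ L := fun h => h
      apply h3
      rw [mem_Wa, tt_comm, ha0]
      exact (Wa B L b).zero_mem
    · have h3 := star (c := c) hB hnd hspan hc hG hirr (Wa_PP hB hL ha) (by
        intro h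
        have h4 : a ∈ Wa B L a := by
          rw [mem_Wa, tt_self]
          exact L.smul_mem _ ha
        rw [h] at h4
        exact ha0 ((Submodule.mem_bot K).1 h4))
      have h4 : b ∈ Wa B L a := by rw [h3]; trivial
      exact h4
  have hall : ∀ a b, tt B a b ∈ L := by
    intro a b
    have h3 : Submodule.span K (Cs B L) ≤ Wa B L b := by
      rw [Submodule.span_le]
      intro x hx
      change tt B b x ∈ L
      rw [tt_comm]
      exact hCall x hx b
    rw [hspan] at h3
    have h4 : a ∈ Wa B L b := h3 trivial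
    rw [tt_comm]
    exact h4
  exact skew_mem h2 hB hnd hall hy

end Pool.Agent.Y98.AZ
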