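import Pool.Agent.Y224.AZ.Stm
import Pool.Agent.Y98.AZ.SpgB

/-!
Project AZ: the statement SPG.
-/

set_option autoImplicit false

namespace Pool.Agent.Y98.AZ

open Module

/-- a Lie algebra with a skew element of rank one, stable under a strongly irreducible group of
similitudes, contains all skew operators -/
theorem t_spg : Pool.Agent.Y224.AZ.S_SPG := by
  intro K V G _ _ _ _ _ _ _ r c B L N hB hnd hc hirr hL hG hN hsk h1 y hy
  exact spg K V G r c B L N hB hnd hc hirr hL hG hN hsk h1 y hy

end Pool.Agent.Y98.AZ
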