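import Mathlib

/-!
Project AZ: subalgebras of the symplectic Lie algebra with elements of rank one.
-/

set_option autoImplicit false
set_option linter.unusedSectionVars false

namespace Pool.Agent.Y98.AZ

open Module

section

variable {K V : Type} [Field K] [AddCommGroup V] [Module K V]

/-- operators of rank one -/
def ro (B : V →ₗ[K] V →ₗ[K] K) (a b : V) : End K V := (B a).smulRight b

theorem ro_apply (B : V →ₗ[K] V →ₗ[K] K) (a b v : V) : ro B a b v = B a v • b := rfl

/-- symmetric combinations -/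
def tt (B : V →ₗ[K] V →ₗ[K] K) (a b : V) : End K V := ro B a b + ro B b a

theorem tt_apply (B : V →ₗ[K] V →ₗ[K] K) (a b v : V) : tt B a b v = B a v • b + B b v • a := rfl

/-- the vectors whose squares are in `L` -/
def Cs (B : V →ₗ[K] V →ₗ[K] K) (L : Submodule K (End K V)) : Set V := {a | ro B a a ∈ L}

/-- the subspaces which are stable under the squares in `L` -/
def PP (B : V →ₗ[K] V →ₗ[K] K) (L : Submodule K (End K V)) (W : Submodule K V) : Prop :=
  ∀ c ∈ Cs B L, c ∈ W ∨ ∀ w ∈ W, B c w = 0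

/-- orthogonal space -/
def orth (B : V →ₗ[K] V →ₗ[K] K) (W : Submodule K V) : Submodule K V where
  carrier := {v | ∀ w ∈ W, B v w = 0}
  zero_mem' := fun w _ => by simp
  add_mem' := fun {x y} hx hy w hw => by
    rw [map_add, LinearMap.add_apply, hx w hw, hy w hw, add_zero]
  smul_mem' := fun c x hx w hw => by
    rw [map_smul, LinearMap.smul_apply, hx w hw, smul_zero]

theorem mem_orth {B : V →ₗ[K] V →ₗ[K] K} {W : Submodule K V} {v : V} :
    v ∈ orth B W ↔ ∀ w ∈ W, B v w = 0 := Iff.rfl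

variable {B : V →ₗ[K] V →ₗ[K] K} {L : Submodule K (End K V)}

theorem swap (hB : ∀ v, B v v = 0) (u v : V) : B u v = -B v u := by
  have h := hB (u + v)
  simp only [map_add, LinearMap.add_apply, hB, zero_add, add_zero] at h
  linear_combination h

theorem PP.inf {W W' : Submodule K V} (h : PP B L W) (h' : PP B L W') : PP B L (W ⊓ W') := by
  intro c hc
  rcases h c hc with h1 | h1
  · rcases h' c hc with h2 | h2
    · exact Or.inl ⟨h1, h2⟩
    · exact Or.inr fun w hw => h2 w hw.2
  · exact Or.inr fun w hw => h1 w hw.1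

theorem PP.orth (hB : ∀ v, B v v = 0) {W : Submodule K V} (h : PP B L W) : PP B L (orth B W) := by
  intro c hc
  rcases h c hc with h1 | h1
  · refine Or.inr fun w hw => ?_
    rw [swap hB, mem_orth.1 hw c h1, neg_zero]
  · exact Or.inl h1

/-- a vector orthogonal to a spanning set is zero -/
theorem eq_zero_of_span (hB : ∀ v, B v v = 0) (hnd : ∀ u, (∀ v, B u v = 0) → u = 0)
    (hspan : Submodule.span K (Cs B L) = ⊤) {u : V} (hu : ∀ c ∈ Cs B L, B c u = 0) : u = 0 := by
  apply hnd
  intro v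
  have hv : v ∈ Submodule.span K (Cs B L) := by rw [hspan]; trivial
  rw [swap hB, neg_eq_zero]
  induction hv using Submodule.span_induction with
  | mem x hx => exact hu x hx
  | zero => simp
  | add x y _ _ hx hy => rw [map_add, LinearMap.add_apply, hx, hy, add_zero]
  | smul t x _ hx => rw [map_smul, LinearMap.smul_apply, hx, smul_zero]

theorem PP.disj (hB : ∀ v, B v v = 0) (hnd : ∀ u, (∀ v, B u v = 0) → u = 0)
    (hspan : Submodule.span K (Cs B L) = ⊤) {W : Submodule K V} (h : PP B L W) : W ⊓ Y98.AZ.orth B W = ⊥ := by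
  rw [Submodule.eq_bot_iff]
  rintro u ⟨hu1, hu2⟩
  refine eq_zero_of_span hB hnd hspan fun c hc => ?_
  rcases h c hc with h1 | h1
  · rw [swap hB, mem_orth.1 hu2 c h1, neg_zero]
  · exact h1 u hu1

/-- the minimal ones -/
def Mn (B : V →ₗ[K] V →ₗ[K] K) (L : Submodule K (End K V)) (W : Submodule K V) : Prop :=
  PP B L W ∧ W ≠ ⊥ ∧ ∀ W' ≤ W, PP B L W' → W' = ⊥ ∨ W' = W

theorem Mn.orth (hB : ∀ v, B v v = 0) (hnd : ∀ u, (∀ v, B u v = 0) → u = 0)
    (hspan : Submodule.span K (Cs B L) = ⊤) {W W' : Submodule K V} (h : Mn B L W) (h' : Mn B L W')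
    (hne : W' ≠ W) : W' ≤ Y98.AZ.orth B W := by
  rcases h'.2.2 (W' ⊓ Y98.AZ.orth B W) inf_le_left (h'.1.inf (h.1.orth hB)) with h1 | h1
  · exfalso
    have h2 : W' ⊓ W = ⊥ := by
      rcases h'.2.2 (W' ⊓ W) inf_le_left (h'.1.inf h.1) with h3 | h3
      · exact h3
      · exfalso
        have h4 : W' ≤ W := h3 ▸ inf_le_right
        rcases h.2.2 W' h4 h'.1 with h5 | h5
        · exact h'.2.1 h5
        · exact hne h5
    apply h'.2.1
    rw [Submodule.eq_bot_iff]
    intro u hu
    refine eq_zero_of_span hB hnd hspan fun c hc => ?_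
    rcases h'.1 c hc with h3 | h3
    · have hc0 : c = 0 := by
        rcases h.1 c hc with h4 | h4
        · exact (Submodule.eq_bot_iff _).1 h2 c ⟨h3, h4⟩
        · exact (Submodule.eq_bot_iff _).1 h1 c ⟨h3, h4⟩
      rw [hc0, map_zero, LinearMap.zero_apply]
    · exact h3 u hu
  · rw [← h1]
    exact inf_le_right

/-- there are finitely many minimal ones -/
theorem Mn_finite [FiniteDimensional K V] (hB : ∀ v, B v v = 0) (hnd : ∀ u, (∀ v, B u v = 0) → u = 0)
    (hspan : Submodule.span K (Cs B L) = ⊤) : {W | Mn B L W}.Finite := by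
  apply WellFoundedGT.finite_of_sSupIndep
  intro W hW
  have h1 : sSup ({W | Mn B L W} \ {W}) ≤ orth B W := by
    apply sSup_le
    rintro W' ⟨hW', hne⟩
    exact Mn.orth hB hnd hspan hW hW' hne
  rw [disjoint_iff, ← le_bot_iff, ← PP.disj hB hnd hspan (Mn.orth hB hnd hspan hW hW |> fun _ => hW.1)]
  exact inf_le_inf_left W h1

variable {G : Type} [Group G] {r : Representation K G V} {c : G → K}

theorem r_inv (g : G) (v : V) : r g (r g⁻¹ v) = v := by
  have h : (r g * r g⁻¹) v = v := by rw [← map_mul, mul_inv_cancel, map_one]; rfl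
  exact h

theorem inv_r (g : G) (v : V) : r g⁻¹ (r g v) = v := by
  have h : (r g⁻¹ * r g) v = v := by rw [← map_mul, inv_mul_cancel, map_one]; rfl
  exact h

theorem Cs_stable (hc : ∀ g u v, B (r g u) (r g v) = c g * B u v) (hG : ∀ g, ∀ y ∈ L, r g * y * r g⁻¹ ∈ L)
    (g : G) {a : V} (ha : a ∈ Cs B L) : r g a ∈ Cs B L := by
  have h1 : ro B (r g a) (r g a) = c g • (r g * ro B a a * r g⁻¹) := by
    ext v
    have h2 := hc g a (r g⁻¹ v)
    rw [r_inv] at h2
    rw [ro_apply, h2, LinearMap.smul_apply, Module.End.mul_apply, Module.End.mul_apply, ro_apply,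
      map_smul, smul_smul]
  change ro B (r g a) (r g a) ∈ L
  rw [h1]
  exact L.smul_mem _ (hG g _ ha)

theorem PP.map (hc : ∀ g u v, B (r g u) (r g v) = c g * B u v) (hG : ∀ g, ∀ y ∈ L, r g * y * r g⁻¹ ∈ L)
    (g : G) {W : Submodule K V} (h : PP B L W) : PP B L (W.map (r g)) := by
  intro a ha
  rcases h _ (Cs_stable hc hG g⁻¹ ha) with h1 | h1
  · exact Or.inl ⟨_, h1, r_inv g a⟩
  · refine Or.inr ?_
    rintro _ ⟨w, hw, rfl⟩
    have h2 := hc g (r g⁻¹ a) w
    rw [r_inv, h1 w hw, mul_zero] at h2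
    exact h2

theorem map_map_inv (g : G) (W : Submodule K V) : (W.map (r g⁻¹)).map (r g) = W := by
  rw [← Submodule.map_comp]
  have : (r g) ∘ₗ (r g⁻¹) = LinearMap.id := LinearMap.ext fun v => r_inv g v
  rw [this, Submodule.map_id]

theorem map_inv_map (g : G) (W : Submodule K V) : (W.map (r g)).map (r g⁻¹) = W := by
  rw [← Submodule.map_comp]
  have : (r g⁻¹) ∘ₗ (r g) = LinearMap.id := LinearMap.ext fun v => inv_r g v
  rw [this, Submodule.map_id]

theorem Mn.map (hc : ∀ g u v, B (r g u) (r g v) = c g * B u v) (hG : ∀ g, ∀ y ∈ L, r g * y * r g⁻¹ ∈ L)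
    (g : G) {W : Submodule K V} (h : Mn B L W) : Mn B L (W.map (r g)) := by
  refine ⟨h.1.map hc hG g, fun h0 => h.2.1 ?_, fun W' hW' hP => ?_⟩
  · rw [← map_inv_map (r := r) g W, h0, Submodule.map_bot]
  · have h1 : W'.map (r g⁻¹) ≤ W := by
      rw [← map_inv_map (r := r) g W]
      exact Submodule.map_mono hW'
    rcases h.2.2 _ h1 (hP.map hc hG g⁻¹) with h2 | h2
    · left
      rw [← map_map_inv (r := r) g W', h2, Submodule.map_bot]
    · right
      rw [← map_map_inv (r := r) g W', h2]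

/-- the subspaces stable under the squares are trivial -/
theorem star [FiniteDimensional K V] (hB : ∀ v, B v v = 0) (hnd : ∀ u, (∀ v, B u v = 0) → u = 0)
    (hspan : Submodule.span K (Cs B L) = ⊤) (hc : ∀ g u v, B (r g u) (r g v) = c g * B u v)
    (hG : ∀ g, ∀ y ∈ L, r g * y * r g⁻¹ ∈ L)
    (hirr : ∀ Δ : Subgroup G, Δ.FiniteIndex → ∀ W : Submodule K V, (∀ g ∈ Δ, ∀ u ∈ W, r g u ∈ W) →
      W = ⊥ ∨ W = ⊤) {W : Submodule K V} (hW : PP B L W) (hne : W ≠ ⊥) : W = ⊤ := by
  obtain ⟨W0, ⟨hP0, hne0⟩, hmin⟩ := WellFounded.has_min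
    (wellFounded_lt : WellFounded ((· < ·) : Submodule K V → Submodule K V → Prop))
    {W | PP B L W ∧ W ≠ ⊥} ⟨W, hW, hne⟩
  have hM0 : Mn B L W0 := by
    refine ⟨hP0, hne0, fun W' h1 h2 => ?_⟩
    by_contra h3
    rw [not_or] at h3
    exact hmin W' ⟨h2, h3.1⟩ (lt_of_le_of_ne h1 h3.2)
  let act : MulAction G (Submodule K V) :=
    { smul := fun g W => W.map (r g)
      one_smul := fun W => by
        change W.map (r 1) = W
        rw [map_one]
        exact Submodule.map_id W
      mul_smul := fun g h W => by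
        change W.map (r (g * h)) = (W.map (r h)).map (r g)
        rw [map_mul, ← Submodule.map_comp]
        rfl }
  have horb : (MulAction.orbit G W0).Finite := by
    refine (Mn_finite hB hnd hspan).subset ?_
    rintro _ ⟨g, rfl⟩
    exact hM0.map hc hG g
  have hfi : (MulAction.stabilizer G W0).FiniteIndex := by
    constructor
    rw [MulAction.index_stabilizer]
    exact Set.ncard_ne_zero_of_mem (MulAction.mem_orbit_self W0) horb
  have htop : W0 = ⊤ := by
    rcases hirr _ hfi W0 (fun g hg u hu => by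
      have h1 : W0.map (r g) = W0 := hg
      rw [← h1]
      exact ⟨u, hu, rfl⟩) with h | h
    · exact absurd h hne0
    · exact h
  rw [htop] at hM0
  rcases hM0.2.2 W le_top hW with h | h
  · exact absurd h hne
  · exact h

end

end Pool.Agent.Y98.AZ
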